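import Pool.Agent.Q222.EP.Proc

/-!
# The lower bound for the maximum path length
-/

set_option autoImplicit false

namespace Pool.Agent.Q222.EP

open Finset

/-- the depth of `b` in the tree of the last edges into the vertices (`f` is fuel) -/
def dep (n : ℕ) (l : List (ℕ × ℕ)) : ℕ → ℕ → ℕ
  | 0, _ => 0
  | f + 1, b => (top (inE n b) l).elim 0 (fun e => dep n l f e.1 + 1)

theorem dep_none {n : ℕ} {l : List (ℕ × ℕ)} {f b : ℕ} (h : top (inE n b) l = none) :
    dep n l (f + 1) b = 0 := by
  unfold dep; rw [h]; rfl

theorem dep_some {n : ℕ} {l : List (ℕ × ℕ)} {f b : ℕ} {e : ℕ × ℕ}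
    (h : top (inE n b) l = some e) : dep n l (f + 1) b = dep n l f e.1 + 1 := by
  conv_lhs => unfold dep
  rw [h]; rfl

theorem dep_le (n : ℕ) (l : List (ℕ × ℕ)) : ∀ f b, dep n l f b ≤ b := by
  intro f
  induction f with
  | zero => intro b; exact Nat.zero_le _
  | succ f ih =>
    intro b
    cases h : top (inE n b) l with
    | none => rw [dep_none h]; exact Nat.zero_le _
    | some e =>
      rw [dep_some h]
      have h1 := mem_inE.mp (top_mem h).1
      have h2 := mem_edges.mp h1.1
      have h3 := ih e.1
      omega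

/-- the depth of `a` does not change when edges into a larger vertex are exchanged -/
theorem dep_swap (n : ℕ) (l : List (ℕ × ℕ)) {x y : ℕ × ℕ} : ∀ (f a : ℕ), a < x.2 → a < y.2 →
    dep n (l.map (Equiv.swap x y)) f a = dep n l f a := by
  intro f
  induction f with
  | zero => intro a _ _; rfl
  | succ f ih =>
    intro a hx hy
    have h1 : top (inE n a) (l.map (Equiv.swap x y)) = top (inE n a) l := by
      apply top_map_of_notMem
      · intro h
        have := (mem_inE.mp h).2
        omega
      · intro h
        have := (mem_inE.mp h).2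
        omega
    cases h : top (inE n a) l with
    | none =>
      rw [dep_none h, dep_none (h1.trans h)]
    | some e =>
      rw [dep_some h, dep_some (h1.trans h)]
      have h2 := mem_inE.mp (top_mem h).1
      have h3 := mem_edges.mp h2.1
      rw [ih e.1 (by omega) (by omega)]

/-- the harmonic numbers -/
noncomputable def har (m : ℕ) : ℝ := ((harmonic m : ℚ) : ℝ)

theorem har_succ (m : ℕ) : har (m + 1) = har m + 1 / ((m : ℝ) + 1) := by
  unfold har
  rw [harmonic_succ]
  push_cast
  ring

theorem sum_har (m : ℕ) : ∑ j ∈ range m, har j = m * har m - m := by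
  induction m with
  | zero => simp
  | succ m ih =>
    rw [sum_range_succ, ih, har_succ]
    push_cast
    field_simp
    ring

theorem sum_dep (n : ℕ) : ∀ (f b : ℕ), 1 ≤ b → b ≤ n → b ≤ f + 1 →
    ∑ l ∈ ords (edges n), (dep n l f b : ℝ) = #(ords (edges n)) * har (b - 1) := by
  intro f
  induction f with
  | zero =>
    intro b h1 _ h2
    have : b = 1 := by omega
    subst this
    have h3 : har 0 = 0 := by unfold har; simp
    rw [show 1 - 1 = 0 from rfl, h3, mul_zero]
    apply sum_eq_zero
    intro l _
    have : dep n l 0 1 = 0 := rfl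
    rw [this, Nat.cast_zero]
  | succ f ih =>
    intro b hb1 hbn hbf
    rcases hb1.eq_or_lt with rfl | hb2
    · have h3 : har 0 = 0 := by unfold har; simp
      rw [show 1 - 1 = 0 from rfl, h3, mul_zero]
      apply sum_eq_zero
      intro l _
      have : dep n l (f + 1) 1 ≤ 0 := by
        cases h : top (inE n 1) l with
        | none => rw [dep_none h]
        | some e =>
          exfalso
          have h1 := mem_inE.mp (top_mem h).1
          have h2 := mem_edges.mp h1.1
          omega
      rw [Nat.le_zero.mp this, Nat.cast_zero]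
    -- the decomposition by the last edge into `b`
    have h1 : ∑ l ∈ ords (edges n), (dep n l (f + 1) b : ℝ) =
        ∑ x ∈ inE n b, ∑ l ∈ (ords (edges n)).filter (fun l => top (inE n b) l = some x),
          ((dep n l f x.1 : ℝ) + 1) := by
      have h2 : ∀ x ∈ inE n b,
          ∑ l ∈ (ords (edges n)).filter (fun l => top (inE n b) l = some x),
            ((dep n l f x.1 : ℝ) + 1) =
          ∑ l ∈ (ords (edges n)).filter (fun l => top (inE n b) l = some x),
            (dep n l (f + 1) b : ℝ) := by
        intro x _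
        refine sum_congr rfl fun l hl => ?_
        rw [mem_filter] at hl
        rw [dep_some hl.2]
        push_cast
        rfl
      rw [sum_congr rfl h2, ← Finset.sum_biUnion]
      · refine sum_congr ?_ fun _ _ => rfl
        ext l
        rw [mem_biUnion]
        constructor
        · intro hl
          have h3 : (b - 1, b) ∈ inE n b := mem_inE.mpr ⟨mem_edges.mpr
            ⟨by simp only; omega, by simp only; omega, hbn⟩, rfl⟩
          obtain ⟨y, hy, h⟩ := exists_top (T := inE n b) (l := l) h3
            (((mem_ords.mp hl).2 _).mpr (mem_inE.mp h3).1)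
          exact ⟨y, hy, mem_filter.mpr ⟨hl, h⟩⟩
        · rintro ⟨y, -, hl⟩
          exact (mem_filter.mp hl).1
      · intro y _ z _ hyz
        refine disjoint_filter.mpr fun l _ h1 h2 => hyz ?_
        rw [h1, Option.some_inj] at h2
        exact h2
    have hbR : (0 : ℝ) < (b : ℝ) - 1 := by
      have : (2 : ℝ) ≤ b := by exact_mod_cast hb2
      linarith
    have hcard : (#(inE n b) : ℝ) = (b : ℝ) - 1 := by
      rw [card_inE hbn, Nat.cast_sub hb1]
      push_cast
      ring
    have h2 : ∀ x ∈ inE n b,
        ((b : ℝ) - 1) * ∑ l ∈ (ords (edges n)).filter (fun l => top (inE n b) l = some x),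
          ((dep n l f x.1 : ℝ) + 1) = #(ords (edges n)) * (har (x.1 - 1) + 1) := by
      intro x hx
      have hxe := mem_inE.mp hx
      have hx2 := mem_edges.mp hxe.1
      have hsub : inE n b ⊆ edges n := filter_subset _ _
      rw [← hcard, sum_top hsub hx (fun l => (dep n l f x.1 : ℝ) + 1)]
      · rw [sum_add_distrib, ih x.1 hx2.1 (by omega) (by omega), sum_const, nsmul_eq_mul]
        ring
      · intro y hy l
        have hye := mem_inE.mp hy
        rw [dep_swap n l f x.1 (by omega) (by omega)]
    have h3 : ((b : ℝ) - 1) * ∑ l ∈ ords (edges n), (dep n l (f + 1) b : ℝ) =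
        ∑ x ∈ inE n b, (#(ords (edges n)) : ℝ) * (har (x.1 - 1) + 1) := by
      rw [h1, mul_sum]
      exact sum_congr rfl h2
    have h4 : ∑ x ∈ inE n b, (#(ords (edges n)) : ℝ) * (har (x.1 - 1) + 1) =
        ∑ j ∈ range (b - 1), (#(ords (edges n)) : ℝ) * (har j + 1) := by
      refine Finset.sum_bij' (fun x _ => x.1 - 1) (fun j _ => (j + 1, b)) ?_ ?_ ?_ ?_ ?_
      · intro x hx
        have hxe := mem_inE.mp hx
        have hx2 := mem_edges.mp hxe.1
        rw [mem_range]
        omega
      · intro j hj
        rw [mem_range] at hj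
        exact mem_inE.mpr ⟨mem_edges.mpr ⟨by simp only; omega, by simp only; omega, hbn⟩, rfl⟩
      · intro x hx
        have hxe := mem_inE.mp hx
        have hx2 := mem_edges.mp hxe.1
        apply Prod.ext
        · simp only; omega
        · exact hxe.2.symm
      · intro j _
        simp
      · intro x _
        rfl
    rw [h4, ← mul_sum, sum_add_distrib, sum_har, sum_const, card_range, nsmul_eq_mul,
      Nat.cast_sub hb1] at h3
    have h5 : ((b : ℝ) - 1) * ∑ l ∈ ords (edges n), (dep n l (f + 1) b : ℝ) =
        ((b : ℝ) - 1) * (#(ords (edges n)) * har (b - 1)) := by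
      rw [h3]
      push_cast
      ring
    exact mul_left_cancel₀ hbR.ne' h5

/-- on the good event the tree path is a path of the output -/
theorem tree_path {n m : ℕ} (hmn : m ≤ n) {l : List (ℕ × ℕ)} (hl : l ∈ ords (edges n))
    (hgood : ∀ a b, a < b → b ≤ m → top (outE n a) l ≠ some (a, b)) :
    ∀ f b, 1 ≤ b → b ≤ m → ∃ v : ℕ → ℕ, v (dep n l f b) = b ∧
      ∀ i < dep n l f b, (v i, v (i + 1)) ∈ outp n l := by
  intro f
  induction f with
  | zero =>
    intro b _ _
    exact ⟨fun _ => b, rfl, fun i hi => absurd hi (Nat.not_lt_zero i)⟩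
  | succ f ih =>
    intro b hb1 hbm
    cases h : top (inE n b) l with
    | none =>
      rw [dep_none h]
      exact ⟨fun _ => b, rfl, fun i hi => absurd hi (Nat.not_lt_zero i)⟩
    | some e =>
      rw [dep_some h]
      obtain ⟨a, b'⟩ := e
      have h1 := mem_inE.mp (top_mem h).1
      have h2 := mem_edges.mp h1.1
      simp only at h1 h2
      obtain ⟨he, rfl⟩ := h1
      obtain ⟨v, hv, hvp⟩ := ih a h2.1 (by omega)
      -- the edge is in the output
      have hout : (a, b') ∈ outp n l := by
        obtain ⟨⟨a', b''⟩, he', hb'⟩ := outp_in hl (v := b') (by omega) (by omega)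
        simp only at hb'
        subst hb'
        have h3 := (outp_top hl he').2
        have h4 := mem_edges.mp (outp_top hl he').1
        simp only at h3 h4
        rcases h3 with h3 | h3
        · rw [h, Option.some_inj] at h3
          rwa [h3]
        · exact absurd h3 (hgood a' b'' h4.2.1 hbm)
      change ∃ v : ℕ → ℕ, v (dep n l f a + 1) = b' ∧
        ∀ i < dep n l f a + 1, (v i, v (i + 1)) ∈ outp n l
      refine ⟨fun i => if i ≤ dep n l f a then v i else b', ?_, ?_⟩
      · simp
      · intro i hi
        simp only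
        rcases Nat.lt_succ_iff_lt_or_eq.mp hi with hi' | rfl
        · rw [if_pos hi'.le, if_pos (by omega)]
          exact hvp i hi'
        · rw [if_pos le_rfl, if_neg (by omega), hv]
          exact hout

open Classical in
theorem lower (n m : ℕ) (hm : 1 ≤ m) (hmn : m < n) :
    har (m - 1) - (m : ℝ) ^ 3 / ((n : ℝ) - m) ≤ expectedLength n := by
  have hmnR : (m : ℝ) < n := by exact_mod_cast hmn
  have hpos := card_ords_pos (edges n)
  rw [expectedLength_eq, le_div_iff₀ hpos]
  set bad : List (ℕ × ℕ) → Prop := fun l => ∃ a b, 1 ≤ a ∧ a < b ∧ b ≤ m ∧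
    top (outE n a) l = some (a, b) with hbad
  have h1 : ∀ l ∈ ords (edges n), (dep n l m m : ℝ) ≤
      maxPath (outp n l) + m * (if bad l then 1 else 0) := by
    intro l hl
    by_cases hb : bad l
    · rw [if_pos hb, mul_one]
      have h2 : (dep n l m m : ℝ) ≤ m := by exact_mod_cast dep_le n l m m
      have h3 : (0 : ℝ) ≤ maxPath (outp n l) := Nat.cast_nonneg _
      linarith
    · rw [if_neg hb, mul_zero, add_zero]
      have hgood : ∀ a b, a < b → b ≤ m → top (outE n a) l ≠ some (a, b) := by
        intro a b hab hbm h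
        apply hb
        have h2 := mem_edges.mp (mem_outE.mp (top_mem h).1).1
        exact ⟨a, b, h2.1, hab, hbm, h⟩
      obtain ⟨v, -, hv⟩ := tree_path hmn.le hl hgood m m hm le_rfl
      exact_mod_cast le_maxPath (outp_subset hl) ⟨v, hv⟩
  have h2 := sum_le_sum h1
  rw [sum_dep n m m hm hmn.le (by omega), sum_add_distrib, ← mul_sum] at h2
  have h3 : ∑ l ∈ ords (edges n), (if bad l then (1 : ℝ) else 0) =
      #((ords (edges n)).filter bad) := by
    rw [card_filter]
    push_cast
    rfl
  rw [h3] at h2
  have h4 : (ords (edges n)).filter bad ⊆ ((Icc 1 m) ×ˢ (Icc 1 m)).biUnion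
      (fun p => (ords (edges n)).filter (fun l => p ∈ edges n ∧ top (outE n p.1) l = some p)) := by
    intro l hl
    rw [mem_filter] at hl
    obtain ⟨hl, a, b, h1, h2, h3, h4⟩ := hl
    rw [mem_biUnion]
    refine ⟨(a, b), ?_, ?_⟩
    · rw [mem_product, mem_Icc, mem_Icc]
      simp only
      omega
    · rw [mem_filter]
      exact ⟨hl, (mem_outE.mp (top_mem h4).1).1, h4⟩
  have h5 : ∀ p ∈ (Icc 1 m) ×ˢ (Icc 1 m), (#((ords (edges n)).filter
      (fun l => p ∈ edges n ∧ top (outE n p.1) l = some p)) : ℝ) ≤
      #(ords (edges n)) / ((n : ℝ) - m) := by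
    rintro ⟨a, b⟩ hp
    rw [mem_product, mem_Icc, mem_Icc] at hp
    simp only at hp ⊢
    have haR : (a : ℝ) ≤ m := by exact_mod_cast hp.1.2
    by_cases he : (a, b) ∈ edges n
    · have hsub : outE n a ⊆ edges n := filter_subset _ _
      have h6 := sum_top (S := edges n) (T := outE n a) hsub
        (x := (a, b)) (mem_outE.mpr ⟨he, rfl⟩) (fun _ => 1) (fun _ _ _ => rfl)
      rw [card_outE hp.1.1, Nat.cast_sub (by omega)] at h6
      simp only [sum_const, nsmul_eq_mul, mul_one] at h6
      have h7 : (ords (edges n)).filter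
          (fun l => (a, b) ∈ edges n ∧ top (outE n a) l = some (a, b)) =
          (ords (edges n)).filter (fun l => top (outE n a) l = some (a, b)) := by
        apply filter_congr
        intro l _
        exact ⟨fun h => h.2, fun h => ⟨he, h⟩⟩
      rw [h7, le_div_iff₀ (by linarith)]
      have h8 : (0 : ℝ) ≤ #((ords (edges n)).filter
        (fun l => top (outE n a) l = some (a, b))) := Nat.cast_nonneg _
      rw [← h6]
      nlinarith
    · have h7 : (ords (edges n)).filter
          (fun l => (a, b) ∈ edges n ∧ top (outE n a) l = some (a, b)) = ∅ := by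
        rw [filter_eq_empty_iff]
        intro l _ h
        exact he h.1
      rw [h7, card_empty, Nat.cast_zero]
      exact div_nonneg hpos.le (by linarith)
  have h6 : (#((ords (edges n)).filter bad) : ℝ) ≤
      (m : ℝ) ^ 2 * (#(ords (edges n)) / ((n : ℝ) - m)) := by
    have h7 : (#((ords (edges n)).filter bad) : ℝ) ≤ ∑ p ∈ (Icc 1 m) ×ˢ (Icc 1 m),
        (#((ords (edges n)).filter
          (fun l => p ∈ edges n ∧ top (outE n p.1) l = some p)) : ℝ) := by
      exact_mod_cast (card_le_card h4).trans card_biUnion_le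
    refine h7.trans ((sum_le_sum h5).trans (le_of_eq ?_))
    rw [sum_const, card_product, Nat.card_Icc, nsmul_eq_mul]
    push_cast
    ring
  have h7 := mul_le_mul_of_nonneg_left h6 (Nat.cast_nonneg (α := ℝ) m)
  have h8 : (m : ℝ) * ((m : ℝ) ^ 2 * (#(ords (edges n)) / ((n : ℝ) - m))) =
      (m : ℝ) ^ 3 / ((n : ℝ) - m) * #(ords (edges n)) := by ring
  rw [h8] at h7
  have h9 : (har (m - 1) - (m : ℝ) ^ 3 / ((n : ℝ) - m)) * #(ords (edges n)) =
      #(ords (edges n)) * har (m - 1) - (m : ℝ) ^ 3 / ((n : ℝ) - m) * #(ords (edges n)) := by ring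
  rw [h9]
  linarith

theorem log_le_har (m : ℕ) (hm : 1 ≤ m) : Real.log m ≤ har (m - 1) := by
  have h := log_add_one_le_harmonic (m - 1)
  rw [show m - 1 + 1 = m by omega] at h
  exact h

end Pool.Agent.Q222.EP
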