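import Mathlib

/-!
# Uniformly random orderings of a finite set

`ords S` is the set of all lists in which every element of `S` occurs exactly once. The head of a
list is read as the *last* element of the ordering; `top T l` is the last element lying in `T`.
-/

set_option autoImplicit false

namespace Pool.Agent.Q222.EP

open Finset

variable {α : Type*} [DecidableEq α]

/-- all lists in which every element of `S` occurs exactly once, and nothing else -/
def ords (S : Finset α) : Finset (List α) := ⟨Multiset.lists S.val, Multiset.lists_nodup_finset S⟩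

omit [DecidableEq α] in
theorem mem_ords {S : Finset α} {l : List α} :
    l ∈ ords S ↔ l.Nodup ∧ ∀ x, x ∈ l ↔ x ∈ S := by
  unfold ords
  rw [mem_mk, Multiset.mem_lists_iff, Multiset.quot_mk_to_coe]
  constructor
  · intro h
    have h1 : (l : Multiset α).Nodup := h ▸ S.nodup
    refine ⟨Multiset.coe_nodup.mp h1, fun x => ?_⟩
    rw [← mem_val, h, Multiset.mem_coe]
  · rintro ⟨h1, h2⟩
    refine (Multiset.Nodup.ext S.nodup (Multiset.coe_nodup.mpr h1)).mpr (fun x => ?_)
    rw [mem_val, Multiset.mem_coe, h2]

omit [DecidableEq α] in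
theorem ords_empty : ords (∅ : Finset α) = {[]} := by
  ext l
  rw [mem_ords, mem_singleton]
  constructor
  · rintro ⟨-, h⟩
    rw [List.eq_nil_iff_forall_not_mem]
    intro x hx
    exact notMem_empty x ((h x).mp hx)
  · rintro rfl
    simp

theorem cons_mem_ords {S : Finset α} {x : α} {l : List α} :
    x :: l ∈ ords S ↔ x ∈ S ∧ l ∈ ords (S.erase x) := by
  rw [mem_ords, mem_ords, List.nodup_cons]
  constructor
  · rintro ⟨⟨h1, h2⟩, h3⟩
    refine ⟨(h3 x).mp (by simp), h2, fun y => ?_⟩
    rw [mem_erase]
    constructor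
    · intro hy
      exact ⟨fun h => h1 (h ▸ hy), (h3 y).mp (by simp [hy])⟩
    · rintro ⟨hy, hyS⟩
      have := (h3 y).mpr hyS
      rcases List.mem_cons.mp this with h | h
      · exact absurd h hy
      · exact h
  · rintro ⟨hx, h2, h3⟩
    refine ⟨⟨fun h => ?_, h2⟩, fun y => ?_⟩
    · have := (h3 x).mp h
      simp at this
    · rw [List.mem_cons]
      constructor
      · rintro (rfl | h)
        · exact hx
        · exact (mem_erase.mp ((h3 y).mp h)).2
      · intro hy
        by_cases hyx : y = x
        · exact Or.inl hyx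
        · exact Or.inr ((h3 y).mpr (mem_erase.mpr ⟨hyx, hy⟩))

/-- splitting off the head -/
theorem sum_ords {S : Finset α} (hS : S.Nonempty) (F : List α → ℝ) :
    ∑ l ∈ ords S, F l = ∑ x ∈ S, ∑ l ∈ ords (S.erase x), F (x :: l) := by
  rw [Finset.sum_sigma' S (fun x => ords (S.erase x)) (fun x l => F (x :: l))]
  symm
  refine Finset.sum_bij (fun (p : (_ : α) × List α) _ => p.1 :: p.2) ?_ ?_ ?_ ?_
  · rintro ⟨x, l⟩ h
    rw [mem_sigma] at h
    exact cons_mem_ords.mpr h
  · rintro ⟨x, l⟩ _ ⟨y, l'⟩ _ h
    simp only [List.cons.injEq] at h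
    obtain ⟨rfl, rfl⟩ := h
    rfl
  · intro l hl
    cases l with
    | nil =>
      obtain ⟨x, hx⟩ := hS
      have := ((mem_ords.mp hl).2 x).mpr hx
      simp at this
    | cons x l =>
      exact ⟨⟨x, l⟩, mem_sigma.mpr (cons_mem_ords.mp hl), rfl⟩
  · rintro ⟨x, l⟩ _
    rfl

theorem card_ords (S : Finset α) : (#(ords S) : ℝ) = (#S).factorial := by
  induction h : #S generalizing S with
  | zero =>
    rw [card_eq_zero] at h
    subst h
    rw [ords_empty]
    simp
  | succ k ih =>
    have hS : S.Nonempty := by
      rw [← card_pos]; omega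
    have h1 := sum_ords hS (fun _ => (1 : ℝ))
    simp only [sum_const, nsmul_eq_mul, mul_one] at h1
    rw [h1]
    have h2 : ∀ x ∈ S, (#(ords (S.erase x)) : ℝ) = k.factorial := by
      intro x hx
      exact ih _ (by rw [card_erase_of_mem hx, h]; rfl)
    rw [sum_congr rfl h2, sum_const, h, nsmul_eq_mul, Nat.factorial_succ]
    push_cast
    ring

theorem card_ords_pos (S : Finset α) : (0 : ℝ) < #(ords S) := by
  rw [card_ords]
  exact_mod_cast Nat.factorial_pos _

/-- the first element of the list `l` lying in `T` -/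
def top (T : Finset α) (l : List α) : Option α := l.find? (fun y => decide (y ∈ T))

theorem top_cons (T : Finset α) (x : α) (l : List α) :
    top T (x :: l) = if x ∈ T then some x else top T l := by
  unfold top
  rw [List.find?_cons]
  by_cases h : x ∈ T <;> simp [h]

theorem top_mem {T : Finset α} {l : List α} {x : α} (h : top T l = some x) : x ∈ T ∧ x ∈ l := by
  unfold top at h
  exact ⟨by simpa using List.find?_some h, List.mem_of_find?_eq_some h⟩

theorem exists_top {T : Finset α} {l : List α} {y : α} (hy : y ∈ T) (hl : y ∈ l) :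
    ∃ x ∈ T, top T l = some x := by
  unfold top
  have h1 : (l.find? (fun y => decide (y ∈ T))).isSome := by
    rw [List.find?_isSome]
    exact ⟨y, hl, by simpa using hy⟩
  obtain ⟨x, hx⟩ := Option.isSome_iff_exists.mp h1
  exact ⟨x, (top_mem hx).1, hx⟩

/-- the number of orderings in which every `T c` has its last element at `e c` -/
theorem count_le {ι : Type*} [DecidableEq ι] (T : ι → Finset α) (e : ι → α) :
    ∀ (k : ℕ) (S : Finset α) (I : Finset ι), #S = k → (∀ c ∈ I, e c ∈ T c) →
      (∀ c ∈ I, T c ⊆ S) → (∀ c ∈ I, ∀ d ∈ I, e c = e d → c = d) →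
      (∀ x, #(I.filter (fun c => x ∈ T c)) ≤ 2) →
      (#((ords S).filter (fun l => ∀ c ∈ I, top (T c) l = some (e c))) : ℝ) ≤
        k.factorial * ∏ c ∈ I, (2 / (#(T c) : ℝ)) := by
  intro k
  induction k with
  | zero =>
    intro S I hS he hT hinj hm
    rw [card_eq_zero] at hS
    subst hS
    have hI : I = ∅ := by
      rw [eq_empty_iff_forall_notMem]
      intro c hc
      exact notMem_empty _ (hT c hc (he c hc))
    subst hI
    rw [ords_empty]
    simp
  | succ k ih =>
    intro S I hS he hT hinj hm
    have hSne : S.Nonempty := by rw [← card_pos]; omega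
    obtain ⟨Q, hQ⟩ : ∃ Q : ℝ, Q = ∏ c ∈ I, (2 / (#(T c) : ℝ)) := ⟨_, rfl⟩
    rw [← hQ]
    have hTpos : ∀ c ∈ I, (0 : ℝ) < #(T c) := fun c hc => by
      exact_mod_cast card_pos.mpr ⟨e c, he c hc⟩
    have hQ0 : 0 ≤ Q := by
      rw [hQ]
      exact prod_nonneg fun c hc => div_nonneg (by norm_num) (hTpos c hc).le
    have hkQ : 0 ≤ (k.factorial : ℝ) * Q := mul_nonneg (Nat.cast_nonneg _) hQ0
    have h1 : (#((ords S).filter (fun l => ∀ c ∈ I, top (T c) l = some (e c))) : ℝ) =
        ∑ x ∈ S, (#((ords (S.erase x)).filter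
          (fun l => ∀ c ∈ I, top (T c) (x :: l) = some (e c))) : ℝ) := by
      rw [card_filter]
      push_cast
      rw [sum_ords hSne]
      refine sum_congr rfl fun x _ => ?_
      rw [card_filter]
      push_cast
      rfl
    rw [h1]
    -- the bound for one `x`
    have h2 : ∀ x ∈ S, (#((ords (S.erase x)).filter
          (fun l => ∀ c ∈ I, top (T c) (x :: l) = some (e c))) : ℝ) ≤
        k.factorial * Q * ((if ∀ c ∈ I, x ∉ T c then 1 else 0) +
          ∑ c ∈ I, if e c = x then (#(T c) : ℝ) / 2 else 0) := by
      intro x hx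
      have hsum0 : 0 ≤ ∑ c ∈ I, (if e c = x then (#(T c) : ℝ) / 2 else 0) :=
        sum_nonneg fun c _ => by split_ifs <;> positivity
      have hck : #(S.erase x) = k := by rw [card_erase_of_mem hx, hS]; rfl
      by_cases hxU : ∀ c ∈ I, x ∉ T c
      · rw [if_pos hxU]
        have h3 := ih (S.erase x) I hck he
          (fun c hc y hy => mem_erase.mpr ⟨fun h => hxU c hc (h ▸ hy), hT c hc hy⟩) hinj hm
        have h4 : (ords (S.erase x)).filter
            (fun l => ∀ c ∈ I, top (T c) (x :: l) = some (e c)) =
            (ords (S.erase x)).filter (fun l => ∀ c ∈ I, top (T c) l = some (e c)) := by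
          apply filter_congr
          intro l _
          refine forall₂_congr fun c hc => ?_
          rw [top_cons, if_neg (hxU c hc)]
        rw [h4]
        rw [← hQ] at h3
        refine h3.trans (le_mul_of_one_le_right hkQ ?_)
        linarith
      · rw [if_neg hxU]
        by_cases hbad : ∃ c ∈ I, x ∈ T c ∧ e c ≠ x
        · obtain ⟨c, hc, hxc, hec⟩ := hbad
          have h4 : (ords (S.erase x)).filter
              (fun l => ∀ c ∈ I, top (T c) (x :: l) = some (e c)) = ∅ := by
            rw [filter_eq_empty_iff]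
            intro l _ h
            have := h c hc
            rw [top_cons, if_pos hxc, Option.some_inj] at this
            exact hec this.symm
          rw [h4, card_empty, Nat.cast_zero]
          exact mul_nonneg hkQ (by linarith)
        · push Not at hbad hxU
          obtain ⟨c₀, hc₀, hxc₀⟩ := hxU
          have hec₀ := hbad c₀ hc₀ hxc₀
          have h4 : (ords (S.erase x)).filter
              (fun l => ∀ c ∈ I, top (T c) (x :: l) = some (e c)) ⊆
              (ords (S.erase x)).filter
                (fun l => ∀ c ∈ I.erase c₀, top (T c) l = some (e c)) := by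
            intro l hl
            rw [mem_filter] at hl ⊢
            refine ⟨hl.1, fun c hc => ?_⟩
            rw [mem_erase] at hc
            have h5 := hl.2 c hc.2
            rw [top_cons] at h5
            by_cases hxc : x ∈ T c
            · exact absurd (hinj c hc.2 c₀ hc₀ (by rw [hbad c hc.2 hxc, hec₀])) hc.1
            · rwa [if_neg hxc] at h5
          have h6 := ih (S.erase x) (I.erase c₀) hck
            (fun c hc => he c (mem_of_mem_erase hc))
            (fun c hc y hy => by
              rw [mem_erase] at hc ⊢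
              refine ⟨?_, hT c hc.2 hy⟩
              rintro rfl
              exact hc.1 (hinj c hc.2 c₀ hc₀ (by rw [hbad c hc.2 hy, hec₀])))
            (fun c hc d hd => hinj c (mem_of_mem_erase hc) d (mem_of_mem_erase hd))
            (fun y => (card_le_card (filter_subset_filter _ (erase_subset _ _))).trans (hm y))
          have h7 : (#((ords (S.erase x)).filter
              (fun l => ∀ c ∈ I, top (T c) (x :: l) = some (e c))) : ℝ) ≤
              k.factorial * ∏ c ∈ I.erase c₀, (2 / (#(T c) : ℝ)) :=
            (by exact_mod_cast card_le_card h4 : (_ : ℝ) ≤ _).trans h6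
          have h8 : Q = 2 / (#(T c₀) : ℝ) * ∏ c ∈ I.erase c₀, (2 / (#(T c) : ℝ)) := by
            rw [hQ, ← mul_prod_erase I (fun c => 2 / (#(T c) : ℝ)) hc₀]
          have h9 : ∏ c ∈ I.erase c₀, (2 / (#(T c) : ℝ)) = Q * ((#(T c₀) : ℝ) / 2) := by
            rw [h8]
            have := hTpos c₀ hc₀
            field_simp
          rw [h9] at h7
          have h10 : (#(T c₀) : ℝ) / 2 ≤ ∑ c ∈ I, (if e c = x then (#(T c) : ℝ) / 2 else 0) := by
            have := single_le_sum (f := fun c => if e c = x then (#(T c) : ℝ) / 2 else 0)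
              (fun c _ => by
                split_ifs
                exacts [div_nonneg (Nat.cast_nonneg _) (by norm_num), le_rfl]) hc₀
            simpa [hec₀] using this
          calc (#((ords (S.erase x)).filter
              (fun l => ∀ c ∈ I, top (T c) (x :: l) = some (e c))) : ℝ)
              ≤ k.factorial * (Q * ((#(T c₀) : ℝ) / 2)) := h7
            _ = k.factorial * Q * ((#(T c₀) : ℝ) / 2) := by ring
            _ ≤ k.factorial * Q * (0 + ∑ c ∈ I, (if e c = x then (#(T c) : ℝ) / 2 else 0)) := by
              apply mul_le_mul_of_nonneg_left _ hkQ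
              linarith
    refine (sum_le_sum h2).trans ?_
    rw [← mul_sum, sum_add_distrib]
    -- number of free points
    set U : Finset α := S.filter (fun x => ¬ ∀ c ∈ I, x ∉ T c) with hU
    have h3 : ∑ x ∈ S, (if ∀ c ∈ I, x ∉ T c then (1 : ℝ) else 0) = #S - #U := by
      have h31 := card_filter_add_card_filter_not (s := S) (p := fun x => ∀ c ∈ I, x ∉ T c)
      have h32 : ∑ x ∈ S, (if ∀ c ∈ I, x ∉ T c then (1 : ℝ) else 0) =
          #(S.filter (fun x => ∀ c ∈ I, x ∉ T c)) := by
        rw [card_filter]
        push_cast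
        rfl
      rw [h32]
      have h33 : (#(S.filter (fun x => ∀ c ∈ I, x ∉ T c)) : ℝ) + #U = #S := by
        rw [hU]
        exact_mod_cast h31
      linarith
    have h4 : ∑ x ∈ S, ∑ c ∈ I, (if e c = x then (#(T c) : ℝ) / 2 else 0) =
        ∑ c ∈ I, (#(T c) : ℝ) / 2 := by
      rw [sum_comm]
      refine sum_congr rfl fun c hc => ?_
      rw [sum_ite_eq]
      rw [if_pos (hT c hc (he c hc))]
    have h5 : ∑ c ∈ I, (#(T c) : ℝ) ≤ 2 * #U := by
      have h51 : ∀ c ∈ I, (#(T c) : ℝ) = ∑ x ∈ U, if x ∈ T c then (1 : ℝ) else 0 := by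
        intro c hc
        have : T c = U.filter (fun x => x ∈ T c) := by
          ext y
          rw [mem_filter, hU, mem_filter]
          constructor
          · intro hy
            exact ⟨⟨hT c hc hy, fun h => h c hc hy⟩, hy⟩
          · intro h; exact h.2
        conv_lhs => rw [this]
        rw [card_filter]
        push_cast
        rfl
      rw [sum_congr rfl h51, sum_comm]
      have h52 : ∀ x ∈ U, ∑ c ∈ I, (if x ∈ T c then (1 : ℝ) else 0) ≤ 2 := by
        intro x _
        have : ∑ c ∈ I, (if x ∈ T c then (1 : ℝ) else 0) = #(I.filter (fun c => x ∈ T c)) := by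
          rw [card_filter]
          push_cast
          rfl
        rw [this]
        exact_mod_cast hm x
      calc ∑ x ∈ U, ∑ c ∈ I, (if x ∈ T c then (1 : ℝ) else 0) ≤ ∑ x ∈ U, (2 : ℝ) := sum_le_sum h52
        _ = 2 * #U := by rw [sum_const, nsmul_eq_mul]; ring
    rw [h3, h4, ← sum_div, hS, Nat.factorial_succ]
    push_cast
    have h6 : ((k : ℝ) + 1 - #U + (∑ c ∈ I, (#(T c) : ℝ)) / 2) ≤ k + 1 := by linarith
    calc (k.factorial : ℝ) * Q * ((k : ℝ) + 1 - #U + (∑ c ∈ I, (#(T c) : ℝ)) / 2)
        ≤ k.factorial * Q * (k + 1) := mul_le_mul_of_nonneg_left h6 hkQ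
      _ = (k + 1) * k.factorial * Q := by ring

/-- exchanging two elements of `S` permutes the orderings -/
theorem map_swap_mem {S : Finset α} {x y : α} (hx : x ∈ S) (hy : y ∈ S) {l : List α}
    (hl : l ∈ ords S) : l.map (Equiv.swap x y) ∈ ords S := by
  rw [mem_ords] at hl ⊢
  refine ⟨hl.1.map (Equiv.swap x y).injective, fun z => ?_⟩
  rw [List.mem_map]
  have hsw : ∀ z, z ∈ S → Equiv.swap x y z ∈ S := by
    intro z hz
    by_cases h1 : z = x
    · subst h1; rw [Equiv.swap_apply_left]; exact hy
    · by_cases h2 : z = y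
      · subst h2; rw [Equiv.swap_apply_right]; exact hx
      · rw [Equiv.swap_apply_of_ne_of_ne h1 h2]; exact hz
  constructor
  · rintro ⟨w, hw, rfl⟩
    exact hsw w ((hl.2 w).mp hw)
  · intro hz
    exact ⟨Equiv.swap x y z, (hl.2 _).mpr (hsw z hz), Equiv.swap_apply_self x y z⟩

theorem swap_mem_iff {T : Finset α} {x y : α} (h : x ∈ T ↔ y ∈ T) (z : α) :
    Equiv.swap x y z ∈ T ↔ z ∈ T := by
  by_cases h1 : z = x
  · subst h1; rw [Equiv.swap_apply_left]; exact h.symm
  · by_cases h2 : z = y
    · subst h2; rw [Equiv.swap_apply_right]; exact h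
    · rw [Equiv.swap_apply_of_ne_of_ne h1 h2]

theorem top_map {T : Finset α} {x y : α} (h : x ∈ T ↔ y ∈ T) (l : List α) :
    top T (l.map (Equiv.swap x y)) = (top T l).map (Equiv.swap x y) := by
  unfold top
  rw [List.find?_map]
  congr 2
  funext z
  simp only [Function.comp, swap_mem_iff h]

theorem top_map_of_notMem {T : Finset α} {x y : α} (hx : x ∉ T) (hy : y ∉ T) (l : List α) :
    top T (l.map (Equiv.swap x y)) = top T l := by
  rw [top_map (by tauto)]
  cases h : top T l with
  | none => rfl
  | some z =>
    have hz := (top_mem h).1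
    rw [Option.map_some, Equiv.swap_apply_of_ne_of_ne]
    · rintro rfl; exact hx hz
    · rintro rfl; exact hy hz

/-- the last element of `T` is uniform, independently of every statistic that is invariant under
the exchanges of elements of `T` -/
theorem sum_top {S T : Finset α} (hTS : T ⊆ S) {x : α} (hx : x ∈ T) (G : List α → ℝ)
    (hG : ∀ y ∈ T, ∀ l, G (l.map (Equiv.swap x y)) = G l) :
    (#T : ℝ) * ∑ l ∈ (ords S).filter (fun l => top T l = some x), G l = ∑ l ∈ ords S, G l := by
  have h1 : ∀ y ∈ T, ∑ l ∈ (ords S).filter (fun l => top T l = some y), G l =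
      ∑ l ∈ (ords S).filter (fun l => top T l = some x), G l := by
    intro y hy
    refine Finset.sum_bij (fun l _ => l.map (Equiv.swap x y)) ?_ ?_ ?_ ?_
    · intro l hl
      rw [mem_filter] at hl ⊢
      refine ⟨map_swap_mem (hTS hx) (hTS hy) hl.1, ?_⟩
      rw [top_map (by tauto), hl.2, Option.map_some, Equiv.swap_apply_right]
    · intro l _ l' _ h
      exact List.map_injective_iff.mpr (Equiv.swap x y).injective h
    · intro l hl
      rw [mem_filter] at hl
      refine ⟨l.map (Equiv.swap x y), ?_, ?_⟩
      · rw [mem_filter]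
        refine ⟨map_swap_mem (hTS hx) (hTS hy) hl.1, ?_⟩
        rw [top_map (by tauto), hl.2, Option.map_some, Equiv.swap_apply_left]
      · rw [List.map_map]
        have : (Equiv.swap x y : α → α) ∘ (Equiv.swap x y) = id := by
          funext z; simp
        rw [this, List.map_id]
    · intro l _
      exact (hG y hy l).symm
  have h2 : ∑ l ∈ ords S, G l = ∑ y ∈ T, ∑ l ∈ (ords S).filter (fun l => top T l = some y), G l := by
    rw [← Finset.sum_biUnion]
    · refine sum_congr ?_ fun _ _ => rfl
      ext l
      rw [mem_biUnion]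
      constructor
      · intro hl
        obtain ⟨y, hy, h⟩ := exists_top (T := T) (l := l) hx (((mem_ords.mp hl).2 x).mpr (hTS hx))
        exact ⟨y, hy, mem_filter.mpr ⟨hl, h⟩⟩
      · rintro ⟨y, -, hl⟩
        exact (mem_filter.mp hl).1
    · intro y _ z _ hyz
      refine disjoint_filter.mpr fun l _ h1 h2 => hyz ?_
      rw [h1, Option.some_inj] at h2
      exact h2
  rw [h2, sum_congr rfl h1, sum_const, nsmul_eq_mul]

end Pool.Agent.Q222.EP
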