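import Pool.Agent.Q222.EP.Ords

/-!
# The (1,1) edge-removal process
-/

set_option autoImplicit false

namespace Pool.Agent.Q222.EP

open Finset

/-- the edges `(a, b)`, `1 ≤ a < b ≤ n`, of the complete task-dependency graph on `n` vertices -/
def edges (n : ℕ) : Finset (ℕ × ℕ) := (Icc 1 n ×ˢ Icc 1 n).filter (fun e => e.1 < e.2)

/-- the initial vertices (in-degree `0`) of the graph on `{1, ..., n}` with edge set `G` -/
def initials (n : ℕ) (G : Finset (ℕ × ℕ)) : Finset ℕ := (Icc 1 n).filter (fun v => ∀ e ∈ G, e.2 ≠ v)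

/-- the terminal vertices (out-degree `0`) of the graph on `{1, ..., n}` with edge set `G` -/
def terminals (n : ℕ) (G : Finset (ℕ × ℕ)) : Finset ℕ :=
  (Icc 1 n).filter (fun v => ∀ e ∈ G, e.1 ≠ v)

/-- the edge `e` is examined in the graph `G`: it is deleted unless this would leave more than one
initial vertex or more than one terminal vertex -/
def step (n : ℕ) (G : Finset (ℕ × ℕ)) (e : ℕ × ℕ) : Finset (ℕ × ℕ) :=
  if 1 < #(initials n (G.erase e)) ∨ 1 < #(terminals n (G.erase e)) then G else G.erase e

/-- the output of the process when the edges are examined in the order of the list `l` -/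
def output (n : ℕ) (l : List (ℕ × ℕ)) : Finset (ℕ × ℕ) := l.foldl (step n) (edges n)

/-- there is a directed path with `k` edges in `G` -/
def HasPath (G : Finset (ℕ × ℕ)) (k : ℕ) : Prop := ∃ v : ℕ → ℕ, ∀ i < k, (v i, v (i + 1)) ∈ G

/-- the maximum directed path length of `G` -/
noncomputable def maxPath (G : Finset (ℕ × ℕ)) : ℕ := sSup {k | HasPath G k}

/-- the expectation of the maximum path length of the output, for a uniformly random order of the
edges -/
noncomputable def expectedLength (n : ℕ) : ℝ :=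
  (∑ l ∈ ords (edges n), (maxPath (output n l) : ℝ)) / #(ords (edges n))

theorem mem_edges {n : ℕ} {e : ℕ × ℕ} : e ∈ edges n ↔ 1 ≤ e.1 ∧ e.1 < e.2 ∧ e.2 ≤ n := by
  unfold edges
  rw [mem_filter, mem_product, mem_Icc, mem_Icc]
  omega

/-- the process with the last edge at the head of the list -/
def outp (n : ℕ) (l : List (ℕ × ℕ)) : Finset (ℕ × ℕ) := l.foldr (fun e G => step n G e) (edges n)

theorem output_reverse (n : ℕ) (l : List (ℕ × ℕ)) : output n l.reverse = outp n l := by
  unfold output outp
  rw [List.foldl_reverse]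

theorem reverse_mem {α : Type*} {S : Finset α} {l : List α} (h : l ∈ ords S) :
    l.reverse ∈ ords S := by
  rw [mem_ords] at h ⊢
  exact ⟨List.nodup_reverse.mpr h.1, fun x => by rw [List.mem_reverse, h.2]⟩

theorem sum_reverse {α : Type*} (S : Finset α) (F : List α → ℝ) :
    ∑ l ∈ ords S, F l.reverse = ∑ l ∈ ords S, F l := by
  refine Finset.sum_bij (fun l _ => l.reverse) (fun l hl => reverse_mem hl) ?_ ?_ ?_
  · intro l _ l' _ h
    exact List.reverse_injective h
  · intro l hl
    exact ⟨l.reverse, reverse_mem hl, List.reverse_reverse l⟩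
  · intro l _
    rfl

theorem expectedLength_eq (n : ℕ) : expectedLength n =
    (∑ l ∈ ords (edges n), (maxPath (outp n l) : ℝ)) / #(ords (edges n)) := by
  unfold expectedLength
  rw [← sum_reverse (edges n) (fun l => (maxPath (output n l) : ℝ))]
  simp only [output_reverse]

/-- the edges into `b` -/
def inE (n b : ℕ) : Finset (ℕ × ℕ) := (edges n).filter (fun e => e.2 = b)
/-- the edges out of `a` -/
def outE (n a : ℕ) : Finset (ℕ × ℕ) := (edges n).filter (fun e => e.1 = a)

theorem mem_inE {n b : ℕ} {e : ℕ × ℕ} : e ∈ inE n b ↔ e ∈ edges n ∧ e.2 = b := by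
  unfold inE; rw [mem_filter]

theorem mem_outE {n a : ℕ} {e : ℕ × ℕ} : e ∈ outE n a ↔ e ∈ edges n ∧ e.1 = a := by
  unfold outE; rw [mem_filter]

theorem card_inE {n b : ℕ} (hb : b ≤ n) : #(inE n b) = b - 1 := by
  have : inE n b = (Ico 1 b).image (fun a => (a, b)) := by
    ext ⟨x, y⟩
    rw [mem_inE, mem_edges, mem_image]
    simp only [mem_Ico, Prod.mk.injEq]
    constructor
    · rintro ⟨⟨h1, h2, h3⟩, rfl⟩
      exact ⟨x, ⟨h1, h2⟩, rfl, rfl⟩
    · rintro ⟨a, ⟨h1, h2⟩, rfl, rfl⟩
      exact ⟨⟨h1, h2, hb⟩, rfl⟩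
  rw [this, card_image_of_injective, Nat.card_Ico]
  intro x y h
  simpa using h

theorem card_outE {n a : ℕ} (ha : 1 ≤ a) : #(outE n a) = n - a := by
  have : outE n a = (Ioc a n).image (fun b => (a, b)) := by
    ext ⟨x, y⟩
    rw [mem_outE, mem_edges, mem_image]
    simp only [mem_Ioc, Prod.mk.injEq]
    constructor
    · rintro ⟨⟨h1, h2, h3⟩, rfl⟩
      exact ⟨y, ⟨h2, h3⟩, rfl, rfl⟩
    · rintro ⟨b, ⟨h1, h2⟩, rfl, rfl⟩
      exact ⟨⟨ha, h1, h2⟩, rfl⟩
  rw [this, card_image_of_injective, Nat.card_Ioc]
  intro x y h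
  simpa using h

theorem outp_cons (n : ℕ) (x : ℕ × ℕ) (l : List (ℕ × ℕ)) :
    outp n (x :: l) = step n (outp n l) x := rfl

theorem step_subset (n : ℕ) (G : Finset (ℕ × ℕ)) (e : ℕ × ℕ) : step n G e ⊆ G := by
  unfold step
  split_ifs
  · exact Subset.refl _
  · exact erase_subset _ _

/-- the invariants of the process -/
theorem outp_inv (n : ℕ) : ∀ l : List (ℕ × ℕ), l.Nodup → (∀ x ∈ l, x ∈ edges n) →
    outp n l ⊆ edges n ∧ (∀ e ∈ edges n, e ∉ l → e ∈ outp n l) ∧
    (∀ v, 2 ≤ v → v ≤ n → ∃ e ∈ outp n l, e.2 = v) ∧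
    (∀ v, 1 ≤ v → v < n → ∃ e ∈ outp n l, e.1 = v) ∧
    (∀ e ∈ outp n l, e ∈ l →
      (top (inE n e.2) l = some e ∧ ∀ f ∈ inE n e.2, f ∈ l) ∨
      (top (outE n e.1) l = some e ∧ ∀ f ∈ outE n e.1, f ∈ l)) := by
  intro l
  induction l with
  | nil =>
    intro _ _
    refine ⟨Subset.refl _, fun e he _ => he, fun v h1 h2 => ?_, fun v h1 h2 => ?_, ?_⟩
    · exact ⟨(1, v), mem_edges.mpr ⟨le_rfl, h1, h2⟩, rfl⟩
    · exact ⟨(v, n), mem_edges.mpr ⟨h1, h2, le_rfl⟩, rfl⟩
    · intro e _ h
      simp at h
  | cons x l ih =>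
    intro hnd hsub
    rw [List.nodup_cons] at hnd
    have hx : x ∈ edges n := hsub x (by simp)
    obtain ⟨i1, i2, i3, i4, i5⟩ := ih hnd.2 (fun y hy => hsub y (by simp [hy]))
    rw [outp_cons]
    set G := outp n l with hG
    have hstep := step_subset n G x
    have hG' : step n G x ⊆ edges n := hstep.trans i1
    have hxe := mem_edges.mp hx
    refine ⟨hG', ?_, ?_, ?_, ?_⟩
    · intro e he hel
      rw [List.mem_cons, not_or] at hel
      have h1 := i2 e he hel.2
      unfold step
      split_ifs
      · exact h1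
      · exact mem_erase.mpr ⟨hel.1, h1⟩
    · intro v h1 h2
      by_cases hc : 1 < #(initials n (G.erase x)) ∨ 1 < #(terminals n (G.erase x))
      · have : step n G x = G := by unfold step; rw [if_pos hc]
        rw [this]
        exact i3 v h1 h2
      · have h3 : step n G x = G.erase x := by unfold step; rw [if_neg hc]
        rw [h3] at hG' ⊢
        by_contra hno
        push Not at hno
        apply hc
        left
        rw [one_lt_card]
        refine ⟨1, ?_, v, ?_, by omega⟩
        · unfold initials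
          rw [mem_filter, mem_Icc]
          refine ⟨⟨le_rfl, by omega⟩, fun e he h => ?_⟩
          have := mem_edges.mp (hG' he)
          omega
        · unfold initials
          rw [mem_filter, mem_Icc]
          exact ⟨⟨by omega, h2⟩, hno⟩
    · intro v h1 h2
      by_cases hc : 1 < #(initials n (G.erase x)) ∨ 1 < #(terminals n (G.erase x))
      · have : step n G x = G := by unfold step; rw [if_pos hc]
        rw [this]
        exact i4 v h1 h2
      · have h3 : step n G x = G.erase x := by unfold step; rw [if_neg hc]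
        rw [h3] at hG' ⊢
        by_contra hno
        push Not at hno
        apply hc
        right
        rw [one_lt_card]
        refine ⟨n, ?_, v, ?_, by omega⟩
        · unfold terminals
          rw [mem_filter, mem_Icc]
          refine ⟨⟨by omega, le_rfl⟩, fun e he h => ?_⟩
          have := mem_edges.mp (hG' he)
          omega
        · unfold terminals
          rw [mem_filter, mem_Icc]
          exact ⟨⟨h1, h2.le⟩, hno⟩
    · intro e he hel
      have heG : e ∈ G := hstep he
      -- the old edges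
      have hold : e ∈ l →
          (top (inE n e.2) (x :: l) = some e ∧ ∀ f ∈ inE n e.2, f ∈ x :: l) ∨
          (top (outE n e.1) (x :: l) = some e ∧ ∀ f ∈ outE n e.1, f ∈ x :: l) := by
        intro hl
        rcases i5 e heG hl with ⟨h1, h2⟩ | ⟨h1, h2⟩
        · left
          refine ⟨?_, fun f hf => List.mem_cons_of_mem _ (h2 f hf)⟩
          rw [top_cons, if_neg (fun h => hnd.1 (h2 x h)), h1]
        · right
          refine ⟨?_, fun f hf => List.mem_cons_of_mem _ (h2 f hf)⟩
          rw [top_cons, if_neg (fun h => hnd.1 (h2 x h)), h1]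
      rcases List.mem_cons.mp hel with rfl | hl
      swap
      · exact hold hl
      by_cases hc : 1 < #(initials n (G.erase e)) ∨ 1 < #(terminals n (G.erase e))
      · rcases hc with hc | hc
        · left
          obtain ⟨v, hv, hv1⟩ := exists_mem_ne hc 1
          unfold initials at hv
          rw [mem_filter, mem_Icc] at hv
          obtain ⟨e', he', hev⟩ := i3 v (by omega) hv.1.2
          have hee : e' = e := by
            by_contra hne
            exact hv.2 e' (mem_erase.mpr ⟨hne, he'⟩) hev
          subst hee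
          refine ⟨?_, fun f hf => ?_⟩
          · rw [top_cons, if_pos (mem_inE.mpr ⟨hx, rfl⟩)]
          · rw [List.mem_cons]
            by_contra hno
            rw [not_or] at hno
            have hf' := mem_inE.mp hf
            exact hv.2 f (mem_erase.mpr ⟨hno.1, i2 f hf'.1 hno.2⟩) (hf'.2.trans hev)
        · right
          obtain ⟨v, hv, hv1⟩ := exists_mem_ne hc n
          unfold terminals at hv
          rw [mem_filter, mem_Icc] at hv
          obtain ⟨e', he', hev⟩ := i4 v hv.1.1 (by omega)
          have hee : e' = e := by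
            by_contra hne
            exact hv.2 e' (mem_erase.mpr ⟨hne, he'⟩) hev
          subst hee
          refine ⟨?_, fun f hf => ?_⟩
          · rw [top_cons, if_pos (mem_outE.mpr ⟨hx, rfl⟩)]
          · rw [List.mem_cons]
            by_contra hno
            rw [not_or] at hno
            have hf' := mem_outE.mp hf
            exact hv.2 f (mem_erase.mpr ⟨hno.1, i2 f hf'.1 hno.2⟩) (hf'.2.trans hev)
      · have h3 : step n G e = G.erase e := by unfold step; rw [if_neg hc]
        rw [h3] at he
        exact absurd rfl (mem_erase.mp he).1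

/-- the output contains only edges which are the last ones into their head or the last ones out of
their tail -/
theorem outp_top {n : ℕ} {l : List (ℕ × ℕ)} (hl : l ∈ ords (edges n)) {e : ℕ × ℕ}
    (he : e ∈ outp n l) :
    e ∈ edges n ∧ (top (inE n e.2) l = some e ∨ top (outE n e.1) l = some e) := by
  rw [mem_ords] at hl
  obtain ⟨i1, -, -, -, i5⟩ := outp_inv n l hl.1 (fun x hx => (hl.2 x).mp hx)
  refine ⟨i1 he, ?_⟩
  rcases i5 e he ((hl.2 e).mpr (i1 he)) with h | h
  · exact Or.inl h.1
  · exact Or.inr h.1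

theorem outp_in {n : ℕ} {l : List (ℕ × ℕ)} (hl : l ∈ ords (edges n)) {v : ℕ} (h1 : 2 ≤ v)
    (h2 : v ≤ n) : ∃ e ∈ outp n l, e.2 = v := by
  rw [mem_ords] at hl
  exact (outp_inv n l hl.1 (fun x hx => (hl.2 x).mp hx)).2.2.1 v h1 h2

/-- a path in a subset of `edges n` is short -/
theorem HasPath.le {n : ℕ} {G : Finset (ℕ × ℕ)} (hG : G ⊆ edges n) {k : ℕ} (h : HasPath G k) :
    k ≤ n := by
  obtain ⟨v, hv⟩ := h
  by_contra hk
  push Not at hk
  have h1 : ∀ i ≤ k, i ≤ v i := by
    intro i
    induction i with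
    | zero => intro _; exact Nat.zero_le _
    | succ i ih =>
      intro hi
      have h2 := ih (by omega)
      have h3 := mem_edges.mp (hG (hv i (by omega)))
      simp only at h3
      omega
  have h2 := h1 k le_rfl
  have h3 := mem_edges.mp (hG (hv (k - 1) (by omega)))
  simp only at h3
  rw [show k - 1 + 1 = k by omega] at h3
  omega

theorem HasPath.mono {G : Finset (ℕ × ℕ)} {k j : ℕ} (h : HasPath G k) (hj : j ≤ k) :
    HasPath G j := by
  obtain ⟨v, hv⟩ := h
  exact ⟨v, fun i hi => hv i (by omega)⟩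

theorem hasPath_maxPath {n : ℕ} {G : Finset (ℕ × ℕ)} (hG : G ⊆ edges n) :
    HasPath G (maxPath G) := by
  have h1 : {k | HasPath G k}.Nonempty := ⟨0, fun _ => 0, fun i hi => by omega⟩
  exact Nat.sSup_mem h1 ⟨n, fun k hk => HasPath.le hG hk⟩

theorem le_maxPath {n : ℕ} {G : Finset (ℕ × ℕ)} (hG : G ⊆ edges n) {k : ℕ} (h : HasPath G k) :
    k ≤ maxPath G :=
  le_csSup ⟨n, fun _ hk => HasPath.le hG hk⟩ h

theorem outp_subset {n : ℕ} {l : List (ℕ × ℕ)} (hl : l ∈ ords (edges n)) :
    outp n l ⊆ edges n := fun _ he => (outp_top hl he).1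

end Pool.Agent.Q222.EP
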