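import Pool.Agent.Q222.EP.Proc

/-!
# The upper bound for the maximum path length
-/

set_option autoImplicit false

namespace Pool.Agent.Q222.EP

open Finset

/-- there is a path with `k` edges from `a`, all of whose edges are the last ones into their head or
out of their tail -/
def PF (n : ℕ) (l : List (ℕ × ℕ)) : ℕ → ℕ → Prop
  | 0, _ => True
  | k + 1, a => ∃ b ∈ Ioc a n,
      (top (inE n b) l = some (a, b) ∨ top (outE n a) l = some (a, b)) ∧ PF n l k b

/-- the weight of the paths with `k` edges from `a` -/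
noncomputable def W (n : ℕ) : ℕ → ℕ → ℝ
  | 0, _ => 1
  | k + 1, a => ∑ b ∈ Ioc a n, (2 / ((b : ℝ) - 1) + 2 / ((n : ℝ) - a)) * W n k b

theorem W_nonneg (n : ℕ) : ∀ k a, 1 ≤ a → 0 ≤ W n k a := by
  intro k
  induction k with
  | zero => intro a _; exact zero_le_one
  | succ k ih =>
    intro a ha
    unfold W
    refine sum_nonneg fun b hb => ?_
    rw [mem_Ioc] at hb
    have h1 : (1 : ℝ) ≤ b := by exact_mod_cast (by omega : 1 ≤ b)
    have h2 : (a : ℝ) ≤ n := by exact_mod_cast (by omega : a ≤ n)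
    have h3 := ih b (by omega)
    have h4 : (0 : ℝ) ≤ 2 / ((b : ℝ) - 1) := div_nonneg (by norm_num) (by linarith)
    have h5 : (0 : ℝ) ≤ 2 / ((n : ℝ) - a) := div_nonneg (by norm_num) (by linarith)
    positivity

/-- a constraint: an edge together with the kind of constraint -/
abbrev Con := (ℕ × ℕ) × Bool

/-- the set in which the edge has to be the last one -/
def TT (n : ℕ) (c : Con) : Finset (ℕ × ℕ) := if c.2 then inE n c.1.2 else outE n c.1.1

theorem mem_TT {n : ℕ} {c : Con} (h : c.1 ∈ edges n) : c.1 ∈ TT n c := by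
  unfold TT
  split_ifs
  · exact mem_inE.mpr ⟨h, rfl⟩
  · exact mem_outE.mpr ⟨h, rfl⟩

theorem TT_subset (n : ℕ) (c : Con) : TT n c ⊆ edges n := by
  unfold TT
  split_ifs
  · exact filter_subset _ _
  · exact filter_subset _ _

/-- the constraints along a path -/
structure Good (n : ℕ) (I : Finset Con) (a : ℕ) : Prop where
  mem : ∀ c ∈ I, c.1 ∈ edges n ∧ c.1.2 ≤ a
  inj : ∀ c ∈ I, ∀ d ∈ I, c.1 = d.1 → c = d
  hin : ∀ c ∈ I, ∀ d ∈ I, c.2 = true → d.2 = true → c.1.2 = d.1.2 → c = d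
  hout : ∀ c ∈ I, ∀ d ∈ I, c.2 = false → d.2 = false → c.1.1 = d.1.1 → c = d

theorem Good.insert {n : ℕ} {I : Finset Con} {a b : ℕ} (hI : Good n I a) (ha : 1 ≤ a) (hab : a < b)
    (hb : b ≤ n) (s : Bool) : Good n (insert ((a, b), s) I) b ∧ ((a, b), s) ∉ I := by
  have hfst : ∀ c ∈ I, c.1.1 < c.1.2 ∧ c.1.2 ≤ a := fun c hc => by
    have h1 := hI.mem c hc
    have h2 := mem_edges.mp h1.1
    exact ⟨h2.2.1, h1.2⟩
  refine ⟨⟨?_, ?_, ?_, ?_⟩, ?_⟩
  · intro c hc
    rcases mem_insert.mp hc with rfl | hc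
    · exact ⟨mem_edges.mpr ⟨ha, hab, hb⟩, le_rfl⟩
    · have := hI.mem c hc
      exact ⟨this.1, by omega⟩
  · intro c hc d hd h
    rcases mem_insert.mp hc with rfl | hc
    · rcases mem_insert.mp hd with rfl | hd
      · rfl
      · have := hfst d hd
        rw [← h] at this
        simp only at this
        omega
    · rcases mem_insert.mp hd with rfl | hd
      · have := hfst c hc
        rw [h] at this
        simp only at this
        omega
      · exact hI.inj c hc d hd h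
  · intro c hc d hd h1 h2 h
    rcases mem_insert.mp hc with rfl | hc
    · rcases mem_insert.mp hd with rfl | hd
      · rfl
      · have := hfst d hd
        simp only at h
        omega
    · rcases mem_insert.mp hd with rfl | hd
      · have := hfst c hc
        simp only at h
        omega
      · exact hI.hin c hc d hd h1 h2 h
  · intro c hc d hd h1 h2 h
    rcases mem_insert.mp hc with rfl | hc
    · rcases mem_insert.mp hd with rfl | hd
      · rfl
      · have := hfst d hd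
        simp only at h
        omega
    · rcases mem_insert.mp hd with rfl | hd
      · have := hfst c hc
        simp only at h
        omega
      · exact hI.hout c hc d hd h1 h2 h
  · intro h
    have := hfst _ h
    simp only at this
    omega

theorem Good.mult {n : ℕ} {I : Finset Con} {a : ℕ} (hI : Good n I a) (x : ℕ × ℕ) :
    #(I.filter (fun c => x ∈ TT n c)) ≤ 2 := by
  have h1 : I.filter (fun c => x ∈ TT n c) ⊆
      I.filter (fun c => c.2 = true ∧ c.1.2 = x.2) ∪ I.filter (fun c => c.2 = false ∧ c.1.1 = x.1) := by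
    intro c hc
    rw [mem_filter] at hc
    rw [mem_union, mem_filter, mem_filter]
    have h := hc.2
    unfold TT at h
    cases hs : c.2 with
    | true =>
      rw [hs, if_pos rfl] at h
      exact Or.inl ⟨hc.1, rfl, (mem_inE.mp h).2.symm⟩
    | false =>
      rw [hs] at h
      simp only [Bool.false_eq_true, if_false] at h
      exact Or.inr ⟨hc.1, rfl, (mem_outE.mp h).2.symm⟩
  have h2 : #(I.filter (fun c => c.2 = true ∧ c.1.2 = x.2)) ≤ 1 := by
    rw [card_le_one]
    intro c hc d hd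
    rw [mem_filter] at hc hd
    exact hI.hin c hc.1 d hd.1 hc.2.1 hd.2.1 (hc.2.2.trans hd.2.2.symm)
  have h3 : #(I.filter (fun c => c.2 = false ∧ c.1.1 = x.1)) ≤ 1 := by
    rw [card_le_one]
    intro c hc d hd
    rw [mem_filter] at hc hd
    exact hI.hout c hc.1 d hd.1 hc.2.1 hd.2.1 (hc.2.2.trans hd.2.2.symm)
  calc #(I.filter (fun c => x ∈ TT n c)) ≤ _ := card_le_card h1
    _ ≤ _ := card_union_le _ _
    _ ≤ 1 + 1 := add_le_add h2 h3

open Classical in
/-- the number of orderings with a path from `a` -/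
theorem count_paths (n : ℕ) : ∀ (k a : ℕ) (I : Finset Con), 1 ≤ a → a ≤ n → Good n I a →
    (#((ords (edges n)).filter (fun l => (∀ c ∈ I, top (TT n c) l = some c.1) ∧ PF n l k a)) : ℝ) ≤
      (#(edges n)).factorial * (∏ c ∈ I, (2 / (#(TT n c) : ℝ))) * W n k a := by
  intro k
  induction k with
  | zero =>
    intro a I ha han hI
    have h1 := count_le (TT n) (fun c : Con => c.1) _ (edges n) I rfl
      (fun c hc => mem_TT (hI.mem c hc).1) (fun c _ => TT_subset n c) hI.inj hI.mult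
    have h2 : W n 0 a = 1 := rfl
    rw [h2, mul_one]
    refine le_trans ?_ h1
    norm_cast
    apply card_le_card
    intro l hl
    rw [mem_filter] at hl ⊢
    exact ⟨hl.1, hl.2.1⟩
  | succ k ih =>
    intro a I ha han hI
    set F : ℝ := (#(edges n)).factorial * (∏ c ∈ I, (2 / (#(TT n c) : ℝ))) with hF
    have h1 : (ords (edges n)).filter
        (fun l => (∀ c ∈ I, top (TT n c) l = some c.1) ∧ PF n l (k + 1) a) ⊆
        (Ioc a n).biUnion (fun b =>
          (ords (edges n)).filter (fun l =>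
            (∀ c ∈ insert ((a, b), true) I, top (TT n c) l = some c.1) ∧ PF n l k b) ∪
          (ords (edges n)).filter (fun l =>
            (∀ c ∈ insert ((a, b), false) I, top (TT n c) l = some c.1) ∧ PF n l k b)) := by
      intro l hl
      rw [mem_filter] at hl
      obtain ⟨hl, hc, b, hb, hbt, hbP⟩ := hl
      rw [mem_biUnion]
      refine ⟨b, hb, ?_⟩
      rw [mem_union, mem_filter, mem_filter]
      rcases hbt with h | h
      · left
        refine ⟨hl, fun c hc' => ?_, hbP⟩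
        rcases mem_insert.mp hc' with rfl | hc'
        · unfold TT
          simp only [if_true]
          exact h
        · exact hc c hc'
      · right
        refine ⟨hl, fun c hc' => ?_, hbP⟩
        rcases mem_insert.mp hc' with rfl | hc'
        · unfold TT
          simp only [Bool.false_eq_true, if_false]
          exact h
        · exact hc c hc'
    have h2 : (#((ords (edges n)).filter
        (fun l => (∀ c ∈ I, top (TT n c) l = some c.1) ∧ PF n l (k + 1) a)) : ℝ) ≤
        ∑ b ∈ Ioc a n, ((#((ords (edges n)).filter (fun l =>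
            (∀ c ∈ insert ((a, b), true) I, top (TT n c) l = some c.1) ∧ PF n l k b)) : ℝ) +
          (#((ords (edges n)).filter (fun l =>
            (∀ c ∈ insert ((a, b), false) I, top (TT n c) l = some c.1) ∧ PF n l k b)) : ℝ)) := by
      have := (card_le_card h1).trans card_biUnion_le
      have h3 : ∀ b ∈ Ioc a n, _ ≤ _ := fun b (_ : b ∈ Ioc a n) => card_union_le
        ((ords (edges n)).filter (fun l =>
            (∀ c ∈ insert ((a, b), true) I, top (TT n c) l = some c.1) ∧ PF n l k b))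
        ((ords (edges n)).filter (fun l =>
            (∀ c ∈ insert ((a, b), false) I, top (TT n c) l = some c.1) ∧ PF n l k b))
      have h4 := this.trans (sum_le_sum h3)
      exact_mod_cast h4
    refine h2.trans ?_
    have h5 : W n (k + 1) a =
        ∑ b ∈ Ioc a n, (2 / ((b : ℝ) - 1) + 2 / ((n : ℝ) - a)) * W n k b := rfl
    rw [h5, mul_sum]
    refine sum_le_sum fun b hb => ?_
    rw [mem_Ioc] at hb
    have hG1 := hI.insert ha hb.1 hb.2 true
    have hG2 := hI.insert ha hb.1 hb.2 false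
    have h6 := ih b _ (by omega) hb.2 hG1.1
    have h7 := ih b _ (by omega) hb.2 hG2.1
    rw [prod_insert hG1.2] at h6
    rw [prod_insert hG2.2] at h7
    have h8 : (#(TT n ((a, b), true)) : ℝ) = (b : ℝ) - 1 := by
      unfold TT
      simp only [if_true]
      rw [card_inE hb.2, Nat.cast_sub (by omega)]
      push_cast
      ring
    have h9 : (#(TT n ((a, b), false)) : ℝ) = (n : ℝ) - a := by
      unfold TT
      simp only [Bool.false_eq_true, if_false]
      rw [card_outE ha, Nat.cast_sub han]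
    rw [h8] at h6
    rw [h9] at h7
    calc _ ≤ _ := add_le_add h6 h7
      _ = F * ((2 / ((b : ℝ) - 1) + 2 / ((n : ℝ) - a)) * W n k b) := by rw [hF]; ring

/-! ### the potential -/

theorem sum_pow_le (s : ℕ) (m : ℕ) :
    ((s : ℝ) + 1) * ∑ j ∈ range m, ((j : ℝ) + 1) ^ s ≤ ((m : ℝ) + 1) ^ (s + 1) := by
  induction m with
  | zero => simp
  | succ m ih =>
    rw [sum_range_succ, mul_add]
    have h1 : ((m : ℝ) + 1) ^ (s + 1) + ((s : ℝ) + 1) * ((m : ℝ) + 1) ^ s ≤
        ((m + 1 : ℕ) + 1 : ℝ) ^ (s + 1) := by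
      push_cast
      have hx : (0 : ℝ) < (m : ℝ) + 1 := by positivity
      have h2 := one_add_mul_le_pow (a := 1 / ((m : ℝ) + 1))
        (by have : (0:ℝ) ≤ 1 / ((m : ℝ) + 1) := by positivity
            linarith) (s + 1)
      have h3 : ((m : ℝ) + 1 + 1) ^ (s + 1) =
          ((m : ℝ) + 1) ^ (s + 1) * (1 + 1 / ((m : ℝ) + 1)) ^ (s + 1) := by
        rw [← mul_pow]
        congr 1
        field_simp
      rw [h3]
      calc ((m : ℝ) + 1) ^ (s + 1) + ((s : ℝ) + 1) * ((m : ℝ) + 1) ^ s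
          = ((m : ℝ) + 1) ^ (s + 1) * (1 + ((s + 1 : ℕ) : ℝ) * (1 / ((m : ℝ) + 1))) := by
            rw [pow_succ]
            push_cast
            field_simp
        _ ≤ _ := mul_le_mul_of_nonneg_left h2 (by positivity)
    linarith

/-- `∑_{b > a} b^(-s-1) ≤ a^(-s) / s` -/
theorem sum_inv_le (s : ℕ) (a : ℕ) (ha : 1 ≤ a) (n : ℕ) (han : a ≤ n) :
    (s : ℝ) * ∑ b ∈ Ioc a n, (1 / (b : ℝ)) ^ (s + 1) + (1 / (n : ℝ)) ^ s ≤ (1 / (a : ℝ)) ^ s := by
  induction n, han using Nat.le_induction with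
  | base => simp
  | succ n han ih =>
    rw [Finset.sum_Ioc_succ_top han, mul_add]
    have hn : (0 : ℝ) < n := by exact_mod_cast (by omega : 0 < n)
    have hn1 : (0 : ℝ) < (n : ℝ) + 1 := by positivity
    have h2 := one_add_mul_le_pow (a := 1 / (n : ℝ))
      (by have : (0:ℝ) ≤ 1 / (n : ℝ) := by positivity
          linarith) s
    have h3 : (1 / ((n : ℝ))) ^ s = (1 / ((n : ℝ) + 1)) ^ s * (1 + 1 / (n : ℝ)) ^ s := by
      rw [← mul_pow]
      congr 1
      field_simp
    have h4 : (s : ℝ) * (1 / ((n : ℝ) + 1)) ^ (s + 1) + (1 / ((n : ℝ) + 1)) ^ s ≤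
        (1 / (n : ℝ)) ^ s := by
      rw [h3]
      calc (s : ℝ) * (1 / ((n : ℝ) + 1)) ^ (s + 1) + (1 / ((n : ℝ) + 1)) ^ s
          = (1 / ((n : ℝ) + 1)) ^ s * (1 + s * (1 / ((n : ℝ) + 1))) := by rw [pow_succ]; ring
        _ ≤ (1 / ((n : ℝ) + 1)) ^ s * (1 + s * (1 / (n : ℝ))) := by
          apply mul_le_mul_of_nonneg_left _ (by positivity)
          have : 1 / ((n : ℝ) + 1) ≤ 1 / (n : ℝ) := one_div_le_one_div_of_le hn (by linarith)
          have := mul_le_mul_of_nonneg_left this (Nat.cast_nonneg (α := ℝ) s)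
          linarith
        _ ≤ _ := mul_le_mul_of_nonneg_left h2 (by positivity)
    push_cast
    linarith

/-- the potential -/
noncomputable def phi (n a : ℕ) : ℝ := ((n : ℝ) + 1 - a) ^ 16 * (1 / (a : ℝ)) ^ 16

theorem phi_step (n a : ℕ) (ha : 1 ≤ a) (han : a ≤ n) :
    ∑ b ∈ Ioc a n, (2 / ((b : ℝ) - 1) + 2 / ((n : ℝ) - a)) * phi n b ≤ 1 / 2 * phi n a := by
  have haR : (1 : ℝ) ≤ a := by exact_mod_cast ha
  have hanR : (a : ℝ) ≤ n := by exact_mod_cast han
  set x : ℝ := (n : ℝ) + 1 - a with hx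
  have hx1 : 1 ≤ x := by rw [hx]; linarith
  rcases han.eq_or_lt with rfl | hlt
  · rw [Ioc_self, sum_empty]
    unfold phi
    have : (0 : ℝ) ≤ (a : ℝ) + 1 - a := by linarith
    positivity
  have hltR : (a : ℝ) + 1 ≤ n := by exact_mod_cast hlt
  -- first part
  have h1 : ∀ b ∈ Ioc a n, 2 / ((b : ℝ) - 1) * phi n b ≤ 4 * x ^ 16 * (1 / (b : ℝ)) ^ 17 := by
    intro b hb
    rw [mem_Ioc] at hb
    have hb1 : (a : ℝ) + 1 ≤ b := by exact_mod_cast hb.1
    have hb2 : (b : ℝ) ≤ n := by exact_mod_cast hb.2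
    have hb0 : (0 : ℝ) < b := by linarith
    have h2 : 2 / ((b : ℝ) - 1) ≤ 4 * (1 / (b : ℝ)) := by
      rw [mul_one_div, div_le_div_iff₀ (by linarith) hb0]
      linarith
    have h3 : phi n b ≤ x ^ 16 * (1 / (b : ℝ)) ^ 16 := by
      unfold phi
      apply mul_le_mul_of_nonneg_right _ (by positivity)
      apply pow_le_pow_left₀ (by linarith)
      rw [hx]; linarith
    have h4 : 0 ≤ phi n b := by
      unfold phi
      have : (0 : ℝ) ≤ (n : ℝ) + 1 - b := by linarith
      positivity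
    calc 2 / ((b : ℝ) - 1) * phi n b ≤ (4 * (1 / (b : ℝ))) * (x ^ 16 * (1 / (b : ℝ)) ^ 16) :=
          mul_le_mul h2 h3 h4 (by positivity)
      _ = 4 * x ^ 16 * (1 / (b : ℝ)) ^ 17 := by ring
  have h5 : ∑ b ∈ Ioc a n, 2 / ((b : ℝ) - 1) * phi n b ≤ 1 / 4 * (x ^ 16 * (1 / (a : ℝ)) ^ 16) := by
    refine (sum_le_sum h1).trans ?_
    rw [← mul_sum]
    have h6 := sum_inv_le 16 a ha n han
    rw [show ((16 : ℕ) : ℝ) = 16 by norm_num] at h6
    change (16 : ℝ) * ∑ b ∈ Ioc a n, (1 / (b : ℝ)) ^ 17 + (1 / (n : ℝ)) ^ 16 ≤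
      (1 / (a : ℝ)) ^ 16 at h6
    have h7 : (0 : ℝ) ≤ (1 / (n : ℝ)) ^ 16 := by positivity
    have h8 : ∑ b ∈ Ioc a n, (1 / (b : ℝ)) ^ 17 ≤ (1 / (a : ℝ)) ^ 16 / 16 := by
      linarith
    calc 4 * x ^ 16 * ∑ b ∈ Ioc a n, (1 / (b : ℝ)) ^ 17 ≤ 4 * x ^ 16 * ((1 / (a : ℝ)) ^ 16 / 16) :=
          mul_le_mul_of_nonneg_left h8 (by positivity)
      _ = _ := by ring
  -- second part
  have h6 : ∀ b ∈ Ioc a n, 2 / ((n : ℝ) - a) * phi n b ≤
      4 / x * (1 / (a : ℝ)) ^ 16 * ((n : ℝ) + 1 - b) ^ 16 := by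
    intro b hb
    rw [mem_Ioc] at hb
    have hb1 : (a : ℝ) + 1 ≤ b := by exact_mod_cast hb.1
    have hb2 : (b : ℝ) ≤ n := by exact_mod_cast hb.2
    have hb0 : (0 : ℝ) < b := by linarith
    have h2 : 2 / ((n : ℝ) - a) ≤ 4 / x := by
      rw [div_le_div_iff₀ (by linarith) (by linarith), hx]
      linarith
    have h3 : phi n b ≤ (1 / (a : ℝ)) ^ 16 * ((n : ℝ) + 1 - b) ^ 16 := by
      unfold phi
      rw [mul_comm]
      apply mul_le_mul_of_nonneg_right _ (by
        have : (0 : ℝ) ≤ (n : ℝ) + 1 - b := by linarith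
        positivity)
      apply pow_le_pow_left₀ (by positivity)
      exact one_div_le_one_div_of_le (by linarith) (by linarith)
    have h4 : 0 ≤ phi n b := by
      unfold phi
      have : (0 : ℝ) ≤ (n : ℝ) + 1 - b := by linarith
      positivity
    calc 2 / ((n : ℝ) - a) * phi n b ≤ 4 / x * ((1 / (a : ℝ)) ^ 16 * ((n : ℝ) + 1 - b) ^ 16) :=
          mul_le_mul h2 h3 h4 (by positivity)
      _ = _ := by ring
  have h7 : ∑ b ∈ Ioc a n, ((n : ℝ) + 1 - b) ^ 16 = ∑ j ∈ range (n - a), ((j : ℝ) + 1) ^ 16 := by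
    refine Finset.sum_bij' (fun b _ => n - b) (fun j _ => n - j) ?_ ?_ ?_ ?_ ?_
    · intro b hb
      rw [mem_Ioc] at hb
      rw [mem_range]
      omega
    · intro j hj
      rw [mem_range] at hj
      rw [mem_Ioc]
      omega
    · intro b hb
      rw [mem_Ioc] at hb
      omega
    · intro j hj
      rw [mem_range] at hj
      omega
    · intro b hb
      rw [mem_Ioc] at hb
      rw [Nat.cast_sub hb.2]
      congr 1
      ring
  have h8 : ∑ b ∈ Ioc a n, ((n : ℝ) + 1 - b) ^ 16 ≤ x ^ 17 / 17 := by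
    rw [h7]
    have h9 := sum_pow_le 16 (n - a)
    rw [Nat.cast_sub han] at h9
    have h10 : (n : ℝ) - a + 1 = x := by rw [hx]; ring
    rw [h10] at h9
    push_cast at h9
    norm_num at h9
    linarith
  have h9 : ∑ b ∈ Ioc a n, 2 / ((n : ℝ) - a) * phi n b ≤ 4 / 17 * (x ^ 16 * (1 / (a : ℝ)) ^ 16) := by
    refine (sum_le_sum h6).trans ?_
    rw [← mul_sum]
    calc 4 / x * (1 / (a : ℝ)) ^ 16 * ∑ b ∈ Ioc a n, ((n : ℝ) + 1 - b) ^ 16
        ≤ 4 / x * (1 / (a : ℝ)) ^ 16 * (x ^ 17 / 17) := mul_le_mul_of_nonneg_left h8 (by positivity)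
      _ = _ := by
        have : x ≠ 0 := by linarith
        field_simp
  have h10 : phi n a = x ^ 16 * (1 / (a : ℝ)) ^ 16 := rfl
  have h11 : (0 : ℝ) ≤ x ^ 16 * (1 / (a : ℝ)) ^ 16 := by positivity
  simp only [add_mul]
  rw [sum_add_distrib, h10]
  linarith

theorem W_le (n : ℕ) (hn : 1 ≤ n) : ∀ k a, 1 ≤ a → a ≤ n →
    W n k a ≤ (1 / 2) ^ k * (n : ℝ) ^ 16 * phi n a := by
  have hnR : (1 : ℝ) ≤ n := by exact_mod_cast hn
  intro k
  induction k with
  | zero =>
    intro a ha han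
    have haR : (1 : ℝ) ≤ a := by exact_mod_cast ha
    have hanR : (a : ℝ) ≤ n := by exact_mod_cast han
    have h1 : W n 0 a = 1 := rfl
    rw [h1, pow_zero, one_mul]
    unfold phi
    have h2 : 1 ≤ ((n : ℝ) + 1 - a) ^ 16 := one_le_pow₀ (by linarith)
    have h3 : 1 ≤ (n : ℝ) ^ 16 * (1 / (a : ℝ)) ^ 16 := by
      rw [← mul_pow]
      apply one_le_pow₀
      rw [mul_one_div, one_le_div (by linarith)]
      exact hanR
    calc (1 : ℝ) = 1 * 1 := by ring
      _ ≤ ((n : ℝ) ^ 16 * (1 / (a : ℝ)) ^ 16) * ((n : ℝ) + 1 - a) ^ 16 :=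
        mul_le_mul h3 h2 (by norm_num) (by positivity)
      _ = _ := by ring
  | succ k ih =>
    intro a ha han
    have h1 : W n (k + 1) a =
        ∑ b ∈ Ioc a n, (2 / ((b : ℝ) - 1) + 2 / ((n : ℝ) - a)) * W n k b := rfl
    rw [h1]
    have h2 : ∑ b ∈ Ioc a n, (2 / ((b : ℝ) - 1) + 2 / ((n : ℝ) - a)) * W n k b ≤
        ∑ b ∈ Ioc a n, ((1 / 2) ^ k * (n : ℝ) ^ 16) *
          ((2 / ((b : ℝ) - 1) + 2 / ((n : ℝ) - a)) * phi n b) := by
      refine sum_le_sum fun b hb => ?_
      rw [mem_Ioc] at hb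
      have hb1 : (a : ℝ) + 1 ≤ b := by exact_mod_cast hb.1
      have hb2 : (b : ℝ) ≤ n := by exact_mod_cast hb.2
      have haR : (1 : ℝ) ≤ a := by exact_mod_cast ha
      have h3 := ih b (by omega) hb.2
      have h4 : (0 : ℝ) ≤ 2 / ((b : ℝ) - 1) := div_nonneg (by norm_num) (by linarith)
      have h5 : (0 : ℝ) ≤ 2 / ((n : ℝ) - a) := div_nonneg (by norm_num) (by linarith)
      calc _ ≤ (2 / ((b : ℝ) - 1) + 2 / ((n : ℝ) - a)) * ((1 / 2) ^ k * (n : ℝ) ^ 16 * phi n b) :=
            mul_le_mul_of_nonneg_left h3 (by linarith)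
        _ = _ := by ring
    refine h2.trans ?_
    rw [← mul_sum]
    calc _ ≤ ((1 / 2) ^ k * (n : ℝ) ^ 16) * (1 / 2 * phi n a) :=
          mul_le_mul_of_nonneg_left (phi_step n a ha han) (by positivity)
      _ = _ := by rw [pow_succ]; ring

theorem PF_of_hasPath {n : ℕ} {l : List (ℕ × ℕ)} (hl : l ∈ ords (edges n)) :
    ∀ (k : ℕ) (v : ℕ → ℕ), (∀ i < k, (v i, v (i + 1)) ∈ outp n l) → PF n l k (v 0) := by
  intro k
  induction k with
  | zero => intro v _; trivial
  | succ k ih =>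
    intro v hv
    have h0 : (v 0, v 1) ∈ outp n l := hv 0 (by omega)
    have h1 := outp_top hl h0
    have h2 := mem_edges.mp h1.1
    refine ⟨v 1, ?_, h1.2, ih (fun i => v (i + 1)) fun i hi => hv (i + 1) (by omega)⟩
    rw [mem_Ioc]
    simp only at h2
    omega

open Classical in
theorem count_hasPath (n : ℕ) (hn : 1 ≤ n) (k : ℕ) :
    (#((ords (edges n)).filter (fun l => HasPath (outp n l) k)) : ℝ) ≤
      #(ords (edges n)) * ((1 / 2) ^ k * (n : ℝ) ^ 33) := by
  have hnR : (1 : ℝ) ≤ n := by exact_mod_cast hn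
  rw [card_ords]
  have h1 : (ords (edges n)).filter (fun l => HasPath (outp n l) k) ⊆
      (Icc 1 n).biUnion (fun a => (ords (edges n)).filter
        (fun l => (∀ c ∈ (∅ : Finset Con), top (TT n c) l = some c.1) ∧ PF n l k a)) := by
    intro l hl
    rw [mem_filter] at hl
    obtain ⟨hl, v, hv⟩ := hl
    rw [mem_biUnion]
    rcases Nat.eq_zero_or_pos k with rfl | hk
    · exact ⟨1, mem_Icc.mpr ⟨le_rfl, hn⟩, mem_filter.mpr ⟨hl, by simp, trivial⟩⟩
    · have h1 := mem_edges.mp (outp_top hl (hv 0 hk)).1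
      simp only at h1
      exact ⟨v 0, mem_Icc.mpr ⟨h1.1, by omega⟩, mem_filter.mpr ⟨hl, by simp,
        PF_of_hasPath hl k v hv⟩⟩
  have h2 : (#((ords (edges n)).filter (fun l => HasPath (outp n l) k)) : ℝ) ≤
      ∑ a ∈ Icc 1 n, (#((ords (edges n)).filter
        (fun l => (∀ c ∈ (∅ : Finset Con), top (TT n c) l = some c.1) ∧ PF n l k a)) : ℝ) := by
    exact_mod_cast (card_le_card h1).trans card_biUnion_le
  refine h2.trans ?_
  have h3 : ∀ a ∈ Icc 1 n, (#((ords (edges n)).filter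
        (fun l => (∀ c ∈ (∅ : Finset Con), top (TT n c) l = some c.1) ∧ PF n l k a)) : ℝ) ≤
        (#(edges n)).factorial * ((1 / 2) ^ k * (n : ℝ) ^ 32) := by
    intro a ha
    rw [mem_Icc] at ha
    have haR : (1 : ℝ) ≤ a := by exact_mod_cast ha.1
    have hanR : (a : ℝ) ≤ n := by exact_mod_cast ha.2
    have h4 := count_paths n k a ∅ ha.1 ha.2
      ⟨by simp, by simp, by simp, by simp⟩
    rw [prod_empty, mul_one] at h4
    refine h4.trans (mul_le_mul_of_nonneg_left ?_ (by positivity))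
    refine (W_le n hn k a ha.1 ha.2).trans ?_
    have h5 : phi n a ≤ (n : ℝ) ^ 16 := by
      unfold phi
      have h6 : ((n : ℝ) + 1 - a) ^ 16 ≤ (n : ℝ) ^ 16 :=
        pow_le_pow_left₀ (by linarith) (by linarith) _
      have h7 : (1 / (a : ℝ)) ^ 16 ≤ 1 := pow_le_one₀ (by positivity) (by
        rw [div_le_one (by linarith)]; exact haR)
      calc _ ≤ (n : ℝ) ^ 16 * 1 := mul_le_mul h6 h7 (by positivity) (by positivity)
        _ = _ := mul_one _
    calc (1 / 2 : ℝ) ^ k * (n : ℝ) ^ 16 * phi n a ≤ (1 / 2) ^ k * (n : ℝ) ^ 16 * (n : ℝ) ^ 16 :=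
          mul_le_mul_of_nonneg_left h5 (by positivity)
      _ = _ := by ring
  refine (sum_le_sum h3).trans (le_of_eq ?_)
  rw [sum_const, Nat.card_Icc, nsmul_eq_mul]
  push_cast
  ring

open Classical in
/-- the upper bound -/
theorem upper (n : ℕ) (hn : 1 ≤ n) (K : ℕ) (hK : (n : ℝ) ^ 34 ≤ 2 ^ K) :
    expectedLength n ≤ K + 1 := by
  have hnR : (1 : ℝ) ≤ n := by exact_mod_cast hn
  rw [expectedLength_eq, div_le_iff₀ (card_ords_pos _)]
  have h1 : ∀ l ∈ ords (edges n), (maxPath (outp n l) : ℝ) ≤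
      K + n * (if HasPath (outp n l) K then 1 else 0) := by
    intro l hl
    have hsub := outp_subset hl
    split_ifs with h
    · have := HasPath.le hsub (hasPath_maxPath hsub)
      have h2 : (maxPath (outp n l) : ℝ) ≤ n := by exact_mod_cast this
      have h3 : (0 : ℝ) ≤ K := Nat.cast_nonneg _
      linarith
    · have : maxPath (outp n l) ≤ K := by
        by_contra hc
        exact h ((hasPath_maxPath hsub).mono (by omega))
      have h2 : (maxPath (outp n l) : ℝ) ≤ K := by exact_mod_cast this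
      linarith
  refine (sum_le_sum h1).trans ?_
  rw [sum_add_distrib, ← mul_sum, sum_const, nsmul_eq_mul]
  have h2 : ∑ l ∈ ords (edges n), (if HasPath (outp n l) K then (1 : ℝ) else 0) =
      #((ords (edges n)).filter (fun l => HasPath (outp n l) K)) := by
    rw [card_filter]
    push_cast
    rfl
  rw [h2]
  have h3 := count_hasPath n hn K
  have h4 : (n : ℝ) * ((1 / 2) ^ K * (n : ℝ) ^ 33) ≤ 1 := by
    have h5 : (0 : ℝ) < 2 ^ K := by positivity
    rw [one_div, inv_pow]
    calc (n : ℝ) * ((2 ^ K)⁻¹ * (n : ℝ) ^ 33) = (n : ℝ) ^ 34 / 2 ^ K := by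
          field_simp
      _ ≤ 1 := by rw [div_le_one h5]; exact hK
  have h5 : (0 : ℝ) ≤ #(ords (edges n)) := Nat.cast_nonneg _
  calc (#(ords (edges n)) : ℝ) * K + n * #((ords (edges n)).filter (fun l => HasPath (outp n l) K))
      ≤ #(ords (edges n)) * K + n * (#(ords (edges n)) * ((1 / 2) ^ K * (n : ℝ) ^ 33)) := by
        have := mul_le_mul_of_nonneg_left h3 (by linarith : (0 : ℝ) ≤ n)
        linarith
    _ = #(ords (edges n)) * K + #(ords (edges n)) * ((n : ℝ) * ((1 / 2) ^ K * (n : ℝ) ^ 33)) := by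
        ring
    _ ≤ #(ords (edges n)) * K + #(ords (edges n)) * 1 := by
        have := mul_le_mul_of_nonneg_left h4 h5
        linarith
    _ = (K + 1) * #(ords (edges n)) := by ring

end Pool.Agent.Q222.EP
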